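import Mathlib
import Pool.Agent.R603.HE.Gen

/-!
# Countably perfectly null and countably perfectly meager sets
-/

namespace Pool.Agent.R603.PN

open Filter Set Cardinal MeasureTheory Topology Pool.Agent.R603.HE

/-- `F` is a countable union of closed sets. -/
def IsFsigma {X : Type} [TopologicalSpace X] (F : Set X) : Prop :=
  ∃ f : ℕ → Set X, (∀ n, IsClosed (f n)) ∧ F = ⋃ n, f n

/-- `A` is universally null: it has outer measure zero for every finite Borel measure vanishing on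
singletons. -/
def UniversallyNull {X : Type} [TopologicalSpace X] [MeasurableSpace X] [BorelSpace X]
    (A : Set X) : Prop :=
  ∀ μ : Measure X, IsFiniteMeasure μ → (∀ x, μ {x} = 0) → μ A = 0

/-- `A` is countably perfectly null: for every finite Borel measure `μ` vanishing on singletons
there is an `F_σ` set `F ⊇ A` with `μ F = 0`. -/
def CountablyPerfectlyNull {X : Type} [TopologicalSpace X] [MeasurableSpace X] [BorelSpace X]
    (A : Set X) : Prop :=
  ∀ μ : Measure X, IsFiniteMeasure μ → (∀ x, μ {x} = 0) →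
    ∃ F : Set X, IsFsigma F ∧ A ⊆ F ∧ μ F = 0

/-- `A` is countably perfectly meager: for every sequence of perfect sets `P n` there is an `F_σ`
set `F ⊇ A` such that `F ∩ P n` is meager in `P n` for every `n`. -/
def CountablyPerfectlyMeager {X : Type} [TopologicalSpace X] (A : Set X) : Prop :=
  ∀ P : ℕ → Set X, (∀ n, Perfect (P n) ∧ (P n).Nonempty) →
    ∃ F : Set X, IsFsigma F ∧ A ⊆ F ∧ ∀ n, IsMeagre {x : P n | (x : X) ∈ F}

theorem exists_enum_basis (X : Type) [TopologicalSpace X] [SecondCountableTopology X] :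
    ∃ B : ℕ → Set X, (∀ n, IsOpen (B n)) ∧ ∀ U : Set X, IsOpen U → ∃ s : Set ℕ, U = ⋃ n ∈ s, B n := by
  obtain ⟨b, hbc, -, hb⟩ := TopologicalSpace.exists_countable_basis X
  rcases b.eq_empty_or_nonempty with he | hne
  · refine ⟨fun _ => ∅, fun _ => isOpen_empty, fun U hU => ⟨∅, ?_⟩⟩
    subst he
    obtain ⟨S, hS, rfl⟩ := hb.open_eq_sUnion hU
    have : S = ∅ := Set.subset_empty_iff.1 hS
    simp [this]
  · obtain ⟨B, hB⟩ := hbc.exists_eq_range hne
    refine ⟨B, fun n => hb.isOpen (hB ▸ ⟨n, rfl⟩), fun U hU => ?_⟩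
    obtain ⟨S, hS, rfl⟩ := hb.open_eq_sUnion hU
    refine ⟨{n | B n ∈ S}, ?_⟩
    ext x
    simp only [Set.mem_sUnion, Set.mem_iUnion]
    constructor
    · rintro ⟨t, ht, hx⟩
      obtain ⟨n, rfl⟩ := hB ▸ hS ht
      exact ⟨n, ht, hx⟩
    · rintro ⟨n, hn, hx⟩
      exact ⟨B n, hn, hx⟩

/-- the `G_δ` set with a given code -/
def Gd {X : Type} (B : ℕ → Set X) (u : ℕ → Set ℕ) : Set X := ⋂ k, ⋃ n ∈ u k, B n

theorem exists_code {X : Type} [TopologicalSpace X] {B : ℕ → Set X}
    (hB : ∀ U : Set X, IsOpen U → ∃ s : Set ℕ, U = ⋃ n ∈ s, B n) (U : ℕ → Set X)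
    (hU : ∀ n, IsOpen (U n)) : ∃ u : ℕ → Set ℕ, ⋂ n, U n = Gd B u := by
  choose u hu using fun n => hB (U n) (hU n)
  refine ⟨u, ?_⟩
  rw [Gd]
  exact Set.iInter_congr hu

/-- the measure used on the line -/
noncomputable def m : Measure ℝ := volume.restrict (Set.Ioo 0 1)

instance : IsFiniteMeasure m := by
  rw [m]
  refine ⟨?_⟩
  simp

theorem m_singleton (x : ℝ) : m {x} = 0 := by
  rw [m]
  refine le_antisymm ((Measure.restrict_apply_le _ _).trans ?_) zero_le
  simp

instance : NeZero m := by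
  refine ⟨?_⟩
  intro h
  have h1 : m Set.univ = 0 := by rw [h]; simp
  rw [m, Measure.restrict_apply_univ, Real.volume_Ioo] at h1
  simp at h1

/-- sections of closed null sets -/
theorem section_dense {F : Set ℝ} (h0 : m F = 0) :
    Dense (Fᶜ ∪ (Set.Icc 0 1)ᶜ) := by
  rw [← Set.compl_inter, ← interior_eq_empty_iff_dense_compl]
  by_contra hne
  obtain ⟨x, hx⟩ := Set.nonempty_iff_ne_empty.2 hne
  have h1 : interior (F ∩ Set.Icc 0 1) ⊆ Set.Ioo 0 1 := by
    rw [← interior_Icc]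
    exact interior_mono Set.inter_subset_right
  have h2 : volume (interior (F ∩ Set.Icc 0 1)) = 0 := by
    have h3 : m (interior (F ∩ Set.Icc 0 1)) = 0 :=
      measure_mono_null (interior_subset.trans Set.inter_subset_left) h0
    rw [m, Measure.restrict_apply isOpen_interior.measurableSet, Set.inter_eq_left.2 h1] at h3
    exact h3
  exact (isOpen_interior.measure_pos volume ⟨x, hx⟩).ne' h2

theorem measure_countable_null {X : Type} [MeasurableSpace X] {ν : Measure X} {Q : Set X}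
    (hQ : Q.Countable) (h : ∀ x ∈ Q, ν {x} = 0) : ν Q = 0 := by
  have h1 : Q = ⋃ x ∈ Q, {x} := by simp
  rw [h1, measure_biUnion_null_iff hQ]
  exact h

theorem exists_open_null {X : Type} [TopologicalSpace X] [MeasurableSpace X] {ν : Measure X}
    [ν.OuterRegular] {Q : Set X} (hQ : ν Q = 0) :
    ∃ U : ℕ → Set X, (∀ n, IsOpen (U n) ∧ Q ⊆ U n) ∧ ν (⋂ n, U n) = 0 := by
  have h1 : ∀ n : ℕ, ∃ U, Q ⊆ U ∧ IsOpen U ∧ ν U < ((n : ENNReal) + 1)⁻¹ := by
    intro n
    obtain ⟨U, hU⟩ := Set.exists_isOpen_lt_of_lt (μ := ν) Q ((n : ENNReal) + 1)⁻¹ (by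
      rw [hQ]
      simp)
    exact ⟨U, hU⟩
  choose U hQU hU hUlt using h1
  refine ⟨U, fun n => ⟨hU n, hQU n⟩, ?_⟩
  rw [← nonpos_iff_eq_zero]
  refine ENNReal.le_of_forall_pos_le_add ?_
  intro ε hε _
  obtain ⟨n, hn⟩ := ENNReal.exists_inv_nat_lt (a := (ε : ENNReal)) (by simpa using hε.ne')
  calc ν (⋂ n, U n) ≤ ν (U n) := measure_mono (Set.iInter_subset _ n)
    _ ≤ ((n : ENNReal) + 1)⁻¹ := (hUlt n).le
    _ ≤ (n : ENNReal)⁻¹ := by
      apply ENNReal.inv_le_inv.2
      exact le_self_add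
    _ ≤ 0 + ε := by rw [zero_add]; exact hn.le

theorem exists_dense_null (ν : Measure ℝ) [IsFiniteMeasure ν] :
    ∃ U : ℕ → Set ℝ, (∀ n, IsOpen (U n) ∧ Dense (U n)) ∧ ν (⋂ n, U n) = 0 := by
  have h1 : {y : ℝ | 0 < ν {y}}.Countable := by
    refine Measure.countable_meas_pos_of_disjoint_iUnion (μ := ν)
      (As := fun y : ℝ => ({y} : Set ℝ)) ?_ ?_
    · intro y; exact measurableSet_singleton y
    · intro a b hab
      simpa using hab
  have h2 : Dense ({y : ℝ | 0 < ν {y}}ᶜ) := h1.dense_compl ℝ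
  obtain ⟨Q, hQs, hQc, hQd⟩ := h2.exists_countable_dense_subset
  have h3 : ν Q = 0 := by
    refine measure_countable_null hQc ?_
    intro x hx
    have := hQs hx
    simpa using this
  obtain ⟨U, hU, hU0⟩ := exists_open_null h3
  exact ⟨U, fun n => ⟨(hU n).1, hQd.mono (hU n).2⟩, hU0⟩

/-- the sequence of points -/
theorem exists_points (hCH : aleph 1 = continuum.{0}) : ∃ a : O1 → ℝ × ℝ,
    (∀ U : ℕ → Set ℝ, (∀ n, IsOpen (U n)) → volume (⋂ n, U n) = 0 →
      {o | (a o).1 ∈ ⋂ n, U n}.Countable) ∧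
    (∀ U : ℕ → Set ℝ, (∀ n, IsOpen (U n) ∧ Dense (U n)) → {o | (a o).2 ∉ ⋂ n, U n}.Countable) ∧
    (∀ F : Set (ℝ × ℝ), IsFsigma F → (m.prod m) F = 0 → ∃ o, a o ∉ F) := by
  classical
  obtain ⟨B, hBo, hB⟩ := exists_enum_basis ℝ
  obtain ⟨C, hCo, hC⟩ := exists_enum_basis (ℝ × ℝ)
  let T : Type := (ℕ → Set ℕ) × (ℕ → Set ℕ) × (ℕ → Set ℕ)
  have hT : #T ≤ #O1 := by
    rw [Cardinal.mk_ord_toType, hCH]
    simp [T]
  obtain ⟨j⟩ := Cardinal.le_def _ _ |>.1 hT
  let τ : O1 → T := Function.invFun j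
  have hτ : Function.Surjective τ := Function.invFun_surjective j.injective
  have hstep : ∀ o : O1, ∃ p : ℝ × ℝ, ∀ i : Set.Iic o,
      (volume (Gd B (τ i).1) = 0 → p.1 ∉ Gd B (τ i).1) ∧
      (Gd B (τ i).2.1 ∈ residual ℝ → p.2 ∈ Gd B (τ i).2.1) ∧
      ((m.prod m) (Gd C (τ i).2.2)ᶜ = 0 → p ∉ (Gd C (τ i).2.2)ᶜ) := by
    intro o
    have hc : Countable (Set.Iic o) := by
      rw [← Set.Iio_insert]
      exact ((countable_Iio o).insert o).to_subtype
    have h1 : ∀ᵐ r ∂m, ∀ i : Set.Iic o, (volume (Gd B (τ i).1) = 0 → r ∉ Gd B (τ i).1) ∧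
        ((m.prod m) (Gd C (τ i).2.2)ᶜ = 0 → m (Prod.mk r ⁻¹' (Gd C (τ i).2.2)ᶜ) = 0) := by
      rw [ae_all_iff]
      intro i
      refine Filter.Eventually.and ?_ ?_
      · by_cases h : volume (Gd B (τ i).1) = 0
        · have h2 : m (Gd B (τ i).1) = 0 :=
            le_antisymm ((Measure.restrict_apply_le _ _).trans h.le) zero_le
          filter_upwards [measure_eq_zero_iff_ae_notMem.1 h2] with r hr _ using hr
        · exact Filter.Eventually.of_forall (fun r h' => absurd h' h)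
      · by_cases h : (m.prod m) (Gd C (τ i).2.2)ᶜ = 0
        · filter_upwards [Measure.measure_ae_null_of_prod_null h] with r hr _ using hr
        · exact Filter.Eventually.of_forall (fun r h' => absurd h' h)
    obtain ⟨r, hr⟩ := h1.exists
    have h2 : ∀ᶠ c in residual ℝ, ∀ i : Set.Iic o,
        (Gd B (τ i).2.1 ∈ residual ℝ → c ∈ Gd B (τ i).2.1) ∧
        ((m.prod m) (Gd C (τ i).2.2)ᶜ = 0 → c ∈ Set.Ioo (0 : ℝ) 1 → (r, c) ∈ Gd C (τ i).2.2) := by
      rw [eventually_countable_forall]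
      intro i
      refine Filter.Eventually.and ?_ ?_
      · by_cases h : Gd B (τ i).2.1 ∈ residual ℝ
        · filter_upwards [h] with c hc _ using hc
        · exact Filter.Eventually.of_forall (fun r h' => absurd h' h)
      · by_cases h : (m.prod m) (Gd C (τ i).2.2)ᶜ = 0
        · have h3 := (hr i).2 h
          have h4 : ∀ k : ℕ, ∀ᶠ c in residual ℝ,
              c ∈ (Prod.mk r ⁻¹' (⋃ n ∈ (τ i).2.2 k, C n)) ∪ (Set.Icc (0 : ℝ) 1)ᶜ := by
            intro k
            have ho : IsOpen (⋃ n ∈ (τ i).2.2 k, C n) := isOpen_biUnion (fun n _ => hCo n)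
            have ho' : IsOpen (Prod.mk r ⁻¹' (⋃ n ∈ (τ i).2.2 k, C n)) :=
              ho.preimage (by fun_prop)
            have h5 : m (Prod.mk r ⁻¹' (⋃ n ∈ (τ i).2.2 k, C n))ᶜ = 0 := by
              refine measure_mono_null ?_ h3
              rw [← Set.preimage_compl]
              apply Set.preimage_mono
              apply Set.compl_subset_compl.2
              exact Set.iInter_subset _ k
            have h6 := section_dense h5
            rw [compl_compl] at h6
            exact residual_of_dense_open (ho'.union isClosed_Icc.isOpen_compl) h6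
          have h7 : ∀ᶠ c in residual ℝ, ∀ k : ℕ,
              c ∈ (Prod.mk r ⁻¹' (⋃ n ∈ (τ i).2.2 k, C n)) ∪ (Set.Icc (0 : ℝ) 1)ᶜ := by
            rw [eventually_countable_forall]
            exact h4
          filter_upwards [h7] with c hc _ hc1
          rw [Gd, Set.mem_iInter]
          intro k
          rcases hc k with h8 | h8
          · exact h8
          · exact absurd (Set.Ioo_subset_Icc_self hc1) h8
        · exact Filter.Eventually.of_forall (fun r h' => absurd h' h)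
    have h3 := dense_of_mem_residual h2
    obtain ⟨c, hc, hc'⟩ := h3.inter_open_nonempty (Set.Ioo (0 : ℝ) 1) isOpen_Ioo ⟨1/2, by norm_num⟩
    refine ⟨(r, c), fun i => ⟨(hr i).1, (hc' i).1, fun h => ?_⟩⟩
    rw [Set.notMem_compl_iff]
    exact (hc' i).2 h hc
  choose a ha using hstep
  refine ⟨a, ?_, ?_, ?_⟩
  · intro U hU hU0
    obtain ⟨u, hu⟩ := exists_code hB U hU
    obtain ⟨i, hi⟩ := hτ (u, u, u)
    refine (countable_Iio i).mono ?_
    intro o ho
    rw [Set.mem_Iio]
    by_contra hcon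
    have h1 := (ha o ⟨i, not_lt.1 hcon⟩).1
    simp only [hi] at h1
    rw [← hu] at h1
    exact h1 hU0 ho
  · intro U hU
    obtain ⟨u, hu⟩ := exists_code hB U (fun n => (hU n).1)
    obtain ⟨i, hi⟩ := hτ (u, u, u)
    refine (countable_Iio i).mono ?_
    intro o ho
    rw [Set.mem_Iio]
    by_contra hcon
    have h1 := (ha o ⟨i, not_lt.1 hcon⟩).2.1
    simp only [hi] at h1
    rw [← hu] at h1
    refine ho (h1 ?_)
    rw [countable_iInter_mem]
    exact fun n => residual_of_dense_open (hU n).1 (hU n).2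
  · rintro F ⟨f, hf, rfl⟩ hF0
    obtain ⟨w, hw⟩ := exists_code hC (fun n => (f n)ᶜ) (fun n => (hf n).isOpen_compl)
    obtain ⟨i, hi⟩ := hτ (w, w, w)
    have h1 := (ha i ⟨i, le_refl i⟩).2.2
    simp only [hi] at h1
    rw [← hw, ← Set.compl_iUnion, compl_compl] at h1
    exact ⟨i, h1 hF0⟩

end Pool.Agent.R603.PN
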