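import Mathlib
import Pool.Agent.R603.PN.Basic

/-!
# A countably perfectly meager universally null set which is not countably perfectly null
-/

namespace Pool.Agent.R603.PN

open Filter Set Cardinal MeasureTheory Topology Pool.Agent.R603.HE

theorem IsFsigma.union {X : Type} [TopologicalSpace X] {F G : Set X} (hF : IsFsigma F)
    (hG : IsFsigma G) : IsFsigma (F ∪ G) := by
  obtain ⟨f, hf, rfl⟩ := hF
  obtain ⟨g, hg, rfl⟩ := hG
  exact ⟨fun n => f n ∪ g n, fun n => (hf n).union (hg n), (Set.iUnion_union_distrib _ _).symm⟩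

theorem IsFsigma.of_countable {X : Type} [TopologicalSpace X] [T1Space X] {F : Set X}
    (hF : F.Countable) : IsFsigma F := by
  rcases F.eq_empty_or_nonempty with rfl | hne
  · exact ⟨fun _ => ∅, fun _ => isClosed_empty, by simp⟩
  · obtain ⟨f, rfl⟩ := hF.exists_eq_range hne
    exact ⟨fun n => {f n}, fun n => isClosed_singleton, by
      ext x
      simp [eq_comm]⟩

theorem not_isOpen_singleton {X : Type} [TopologicalSpace X] {P : Set X} (hP : Perfect P)
    (x : P) : ¬ IsOpen ({x} : Set P) := by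
  intro h
  obtain ⟨U, hU, hUx⟩ := isOpen_induced_iff.1 h
  have h1 := hP.acc (x : X) x.2
  rw [accPt_iff_nhds] at h1
  have hx : (x : X) ∈ U := by
    have : x ∈ ((↑) : P → X) ⁻¹' U := by rw [hUx]; rfl
    exact this
  obtain ⟨y, hy, hyx⟩ := h1 U (hU.mem_nhds hx)
  apply hyx
  have h2 : (⟨y, hy.2⟩ : P) ∈ ((↑) : P → X) ⁻¹' U := hy.1
  rw [hUx] at h2
  exact congrArg Subtype.val h2

theorem isMeagre_countable {X : Type} [TopologicalSpace X] [T1Space X] {P : Set X}
    (hP : Perfect P) {S : Set P} (hS : S.Countable) : IsMeagre S := by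
  have h1 : S = ⋃ x ∈ S, {x} := by simp
  rw [h1]
  refine isMeagre_biUnion hS ?_
  intro x _
  rw [IsMeagre]
  exact residual_of_dense_open isOpen_compl_singleton
    (dense_compl_singleton_iff_not_open.2 (not_isOpen_singleton hP x))

theorem exists_set (hCH : aleph 1 = continuum.{0}) : ∃ A : Set (ℝ × ℝ),
    CountablyPerfectlyMeager A ∧ UniversallyNull A ∧ ¬ CountablyPerfectlyNull A := by
  classical
  obtain ⟨a, h1, h2, h3⟩ := exists_points hCH
  refine ⟨Set.range a, ?_, ?_, ?_⟩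
  · intro P hP
    have hD : ∀ n, ∃ D : Set (P n), D.Countable ∧ Dense D := fun n =>
      TopologicalSpace.exists_countable_dense (P n)
    choose D hDc hDd using hD
    have hQ : (⋃ n, (fun x : P n => (x : ℝ × ℝ).1) '' D n).Countable :=
      Set.countable_iUnion (fun n => (hDc n).image _)
    have hQ0 : volume (⋃ n, (fun x : P n => (x : ℝ × ℝ).1) '' D n) = 0 := hQ.measure_zero _
    obtain ⟨O, hO, hO0⟩ := exists_open_null hQ0
    refine ⟨(Prod.fst ⁻¹' (⋂ n, O n))ᶜ ∪ a '' {o | (a o).1 ∈ ⋂ n, O n}, ?_, ?_, ?_⟩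
    · refine IsFsigma.union ?_ (IsFsigma.of_countable ((h1 O (fun n => (hO n).1) hO0).image _))
      refine ⟨fun n => (Prod.fst ⁻¹' (O n))ᶜ, fun n => ?_, ?_⟩
      · exact ((hO n).1.preimage continuous_fst).isClosed_compl
      · rw [Set.preimage_iInter, Set.compl_iInter]
    · rintro _ ⟨o, rfl⟩
      by_cases h : (a o).1 ∈ ⋂ n, O n
      · exact Or.inr ⟨o, h, rfl⟩
      · exact Or.inl h
    · intro n
      have hA : {x : P n | (x : ℝ × ℝ) ∈ (Prod.fst ⁻¹' (⋂ n, O n))ᶜ ∪
          a '' {o | (a o).1 ∈ ⋂ n, O n}} =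
          {x : P n | (x : ℝ × ℝ) ∈ (Prod.fst ⁻¹' (⋂ n, O n))ᶜ} ∪
          {x : P n | (x : ℝ × ℝ) ∈ a '' {o | (a o).1 ∈ ⋂ n, O n}} := rfl
      rw [hA]
      refine IsMeagre.union ?_ ?_
      · have hB : {x : P n | (x : ℝ × ℝ) ∈ (Prod.fst ⁻¹' (⋂ n, O n))ᶜ}ᶜ =
            ⋂ k, {x : P n | (x : ℝ × ℝ).1 ∈ O k} := by
          ext x
          simp
        rw [IsMeagre, hB, countable_iInter_mem]
        intro k
        refine residual_of_dense_open ((hO k).1.preimage (by fun_prop)) ?_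
        refine (hDd n).mono ?_
        intro x hx
        exact (hO k).2 (Set.mem_iUnion.2 ⟨n, ⟨x, hx, rfl⟩⟩)
      · refine isMeagre_countable (hP n).1 ?_
        exact ((h1 O (fun n => (hO n).1) hO0).image a).preimage Subtype.val_injective
  · intro ν hν hν0
    obtain ⟨U, hU, hU0⟩ := exists_dense_null (ν.map Prod.snd)
    have hm : MeasurableSet (⋂ n, U n) := MeasurableSet.iInter (fun n => (hU n).1.measurableSet)
    rw [Measure.map_apply measurable_snd hm] at hU0
    have h4 : ν (a '' {o | (a o).2 ∉ ⋂ n, U n}) = 0 :=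
      measure_countable_null ((h2 U hU).image _) (fun x _ => hν0 x)
    refine measure_mono_null ?_ (measure_union_null hU0 h4)
    rintro _ ⟨o, rfl⟩
    by_cases h : (a o).2 ∈ ⋂ n, U n
    · exact Or.inl h
    · exact Or.inr ⟨o, h, rfl⟩
  · intro h
    obtain ⟨F, hF, hAF, hF0⟩ := h (m.prod m) inferInstance (by
      rintro ⟨x, y⟩
      have h5 : ({(x, y)} : Set (ℝ × ℝ)) = {x} ×ˢ {y} := by simp
      rw [h5, Measure.prod_prod, m_singleton, zero_mul])
    obtain ⟨o, ho⟩ := h3 F hF hF0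
    exact ho (hAF ⟨o, rfl⟩)

end Pool.Agent.R603.PN
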